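import Pool.Agent.Y957.VK.Fin2

/-!
# Möbius disjointness for almost every automorphism in a family of one-parameter groups

Let `W` be an arbitrary C*-algebra (not necessarily exact), let `V` be a finite dimensional real vector
space and let `σ v`, `v ∈ V`, be *-automorphisms of `W` such that `v ↦ σ v u` is norm continuous for every
`u ∈ W` and `t ↦ σ (t v)` is a one-parameter group for every `v ∈ V`.  Examples: a one-parameter group
(`V = ℝ`), an action of `ℝ ^ d`, and `v ↦ α (exp v)` for a continuous action `α` of a Lie group with Lie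
algebra `V`.  No assumption is made on the entropy.

For every bounded functional `ρ`, for example a state, every separable subset `S` of `W`, for example one
element, and almost every `v ∈ V`: `(1 / N) ∑_{n ≤ N} μ(n) ρ((σ v)^n u) → 0` for all `u ∈ S`.
-/

set_option autoImplicit false

namespace Pool.Agent.Results.MP_7a8f48_an.AlmostEveryAutomorphism

open Filter Topology MeasureTheory

/-- a family of *-automorphisms with norm continuous orbits, a one-parameter group on every line -/
structure RadialGroups {V W : Type} [NormedAddCommGroup V] [NormedSpace ℝ V] [NonUnitalCStarAlgebra W]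
    (σ : V → (W ≃⋆ₐ[ℂ] W)) : Prop where
  add : ∀ (s t : ℝ) (v : V) (u : W), σ ((s + t) • v) u = σ (s • v) (σ (t • v) u)
  continuous : ∀ u : W, Continuous fun v => σ v u

theorem RadialGroups.zero {V W : Type} [NormedAddCommGroup V] [NormedSpace ℝ V]
    [NonUnitalCStarAlgebra W] {σ : V → (W ≃⋆ₐ[ℂ] W)} (h : RadialGroups σ) (u : W) : σ 0 u = u := by
  have h1 := h.add 0 0 0 u
  simp only [smul_zero] at h1
  exact ((σ 0).injective h1).symm

theorem RadialGroups.iter {V W : Type} [NormedAddCommGroup V] [NormedSpace ℝ V]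
    [NonUnitalCStarAlgebra W] {σ : V → (W ≃⋆ₐ[ℂ] W)} (h : RadialGroups σ) (v : V) (u : W) (n : ℕ) :
    (σ v)^[n] u = σ ((n : ℝ) • v) u := by
  induction n with
  | zero => simp [h.zero]
  | succ n ih =>
    rw [Function.iterate_succ_apply', ih]
    have h1 := h.add 1 n v u
    rw [one_smul] at h1
    have e : (1 + (n : ℝ)) = ((n + 1 : ℕ) : ℝ) := by
      push_cast
      ring
    rw [← h1, e]

theorem norm_sigma {W : Type} [NonUnitalCStarAlgebra W] (f : W ≃⋆ₐ[ℂ] W) (u : W) : ‖f u‖ = ‖u‖ :=
  StarAlgEquiv.norm_map f u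

theorem result (V : Type) [NormedAddCommGroup V] [NormedSpace ℝ V] [FiniteDimensional ℝ V]
    [MeasurableSpace V] [BorelSpace V] (ν : Measure V) [ν.IsAddHaarMeasure]
    (W : Type) [NonUnitalCStarAlgebra W] (σ : V → (W ≃⋆ₐ[ℂ] W)) (hσ : RadialGroups σ)
    (ρ : W →L[ℂ] ℂ) (S : Set W) (hS : TopologicalSpace.IsSeparable S) :
    ∀ᵐ v ∂ν, ∀ u ∈ S,
      Tendsto
        (fun N : ℕ =>
          (1 / (N : ℂ)) *
            ∑ n ∈ Finset.Icc 1 N, ((ArithmeticFunction.moebius n : ℤ) : ℂ) * ρ ((σ v)^[n] u))
        atTop (𝓝 0) := by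
  have hmain := Pool.Agent.Y957.VK.familyV Pool.Agent.Y957.VK.uc2_all _ Pool.Agent.Y957.VK.mu_le
    Pool.Agent.Y957.VK.neg_mu ν (fun (u : W) (v : V) => ρ (σ v u)) ‖ρ‖
    (fun u u' v => by
      rw [← map_sub, ← map_sub]
      refine (ρ.le_opNorm _).trans ?_
      rw [norm_sigma])
    (fun v => by simp)
    (fun u => ρ.continuous.comp (hσ.continuous u))
    (fun u v ε hε => by
      have hcv : Continuous fun s : ℝ => σ (s • v) u :=
        (hσ.continuous u).comp (continuous_id.smul continuous_const)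
      have h1 : Tendsto (fun s : ℝ => ‖ρ‖ * ‖σ (s • v) u - u‖) (𝓝 0)
          (𝓝 (‖ρ‖ * ‖σ ((0 : ℝ) • v) u - u‖)) :=
        (((hcv.sub continuous_const).norm).const_mul ‖ρ‖).tendsto 0
      rw [zero_smul, hσ.zero, sub_self, norm_zero, mul_zero] at h1
      obtain ⟨δ, hδ, h2⟩ := Metric.eventually_nhds_iff.1 (h1.eventually (gt_mem_nhds hε))
      refine ⟨δ, hδ, fun t s hs hsδ => ?_⟩
      have h3 := h2 (y := s) (by rw [Real.dist_eq, sub_zero, abs_of_nonneg hs]; exact hsδ)
      rw [hσ.add, ← map_sub, ← map_sub]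
      refine (ρ.le_opNorm _).trans ?_
      rw [norm_sigma]
      exact h3.le) S hS
  filter_upwards [hmain] with v hv u hu
  refine (hv u hu).congr fun N => ?_
  refine congrArg _ (Finset.sum_congr rfl fun n _ => ?_)
  rw [hσ.iter]

end Pool.Agent.Results.MP_7a8f48_an.AlmostEveryAutomorphism
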