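import Pool.Agent.Y326.Sing5
import Pool.Agent.Y326.Appr

/-!
# Logarithmic Möbius disjointness for automorphisms of C*-algebras with singular spectrum

The proof uses the two-point correlations of the Möbius function in logarithmic mean (Tao's theorem,
`Pool.Agent.Y326.Chw2`, which is proved there from the starting files).
-/

set_option autoImplicit false

open Filter Topology Finset MeasureTheory

namespace Pool.Agent.Results.MP_7a8f48_an.SingularSpectrum

universe u v

/-- the Möbius function -/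
def mu (n : ℕ) : ℤ := ArithmeticFunction.moebius n

/-- the Liouville function -/
def lam (n : ℕ) : ℤ := (-1) ^ ArithmeticFunction.cardFactors n

section general

variable {X : Type u} [NormedAddCommGroup X] [NormedSpace ℂ X]

/-- the sum of `f(m) e(mθ) Tᵐ(x)` over the `m` in `s`, where `e(t) = exp (2πit)` -/
noncomputable def twistedSum (T : X → X) (f : ℕ → ℤ) (θ : ℝ) (s : Finset ℕ) (x : X) : X :=
  ∑ m ∈ s, ((f m : ℂ) * Complex.exp (2 * Real.pi * Complex.I * (m * θ))) • (T^[m]) x

/-- the sums over the windows of length `M` are small, in logarithmic mean over their position -/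
def SmallWindows (T : X → X) (f : ℕ → ℤ) (x : X) (ε : ℝ) : Prop :=
  ∃ M₀ : ℕ, ∀ M : ℕ, M₀ ≤ M → ∃ N₀ : ℕ, ∀ N : ℕ, N₀ ≤ N → ∀ θ : ℝ,
    ∑ n ∈ Icc 1 N, (1 / (n : ℝ)) * ‖twistedSum T f θ (Ico n (n + M)) x‖ ≤ ε * M * Real.log N

/-- the logarithmic means are small -/
def SmallLogMean (T : X → X) (f : ℕ → ℤ) (x : X) (ε : ℝ) : Prop :=
  ∃ N₀ : ℕ, ∀ N : ℕ, N₀ ≤ N → ∀ θ : ℝ,
    ‖∑ n ∈ Icc 1 N, (1 / (n : ℂ)) • twistedSum T f θ {n} x‖ ≤ ε * Real.log N

open Classical in
/-- the means over `[1, N]` are small for the `N` outside a set of small logarithmic density -/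
def SmallMostN (T : X → X) (f : ℕ → ℤ) (x : X) (ε : ℝ) : Prop :=
  ∃ Z₀ : ℕ, ∀ Z : ℕ, Z₀ ≤ Z → ∀ θ : ℝ,
    ∑ N ∈ (Icc 1 Z).filter (fun N : ℕ => ε * N < ‖twistedSum T f θ (Icc 1 N) x‖), 1 / (N : ℝ) ≤
      ε * Real.log Z

/-- The orbit of `x` is disjoint from `f` in norm, uniformly in the twist by `e(mθ)`: in the means
over windows, in logarithmic mean, and in mean over `[1, N]` for most `N`. -/
def NormDisjoint (T : X → X) (f : ℕ → ℤ) (x : X) : Prop :=
  ∀ ε : ℝ, 0 < ε → SmallWindows T f x ε ∧ SmallLogMean T f x ε ∧ SmallMostN T f x ε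

open Classical in
/-- a set of positive integers of logarithmic density one -/
def LogDensityOne (s : Set ℕ) : Prop :=
  Tendsto (fun Z : ℕ => (1 / Real.log (Z : ℝ)) * ∑ n ∈ (Icc 1 Z).filter (· ∈ s), (1 / (n : ℝ)))
    atTop (𝓝 1)

/-- For each separable set `D` and each countable set `Θ` there is one set `s` of logarithmic density
one such that the averages over `[1, N]` tend to zero in norm for `N → ∞` in `s`, for all `x` in `D`
and all twists in `Θ`. -/
def AlongDensityOne (T : X → X) (f : ℕ → ℤ) : Prop :=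
  ∀ D : Set X, TopologicalSpace.IsSeparable D → ∀ Θ : Set ℝ, Θ.Countable →
    ∃ s : Set ℕ, LogDensityOne s ∧ ∀ x ∈ D, ∀ θ ∈ Θ,
      Tendsto (fun N : ℕ => (1 / (N : ℂ)) • twistedSum T f θ (Icc 1 N) x) (atTop ⊓ 𝓟 s) (𝓝 0)

/-- disjointness from `f` in logarithmic mean and along sets of logarithmic density one, for all
vectors -/
def LogDisjoint (T : X → X) (f : ℕ → ℤ) : Prop :=
  (∀ x, NormDisjoint T f x) ∧ AlongDensityOne T f ∧
  ∀ (ρ : X →L[ℂ] ℂ) (x : X), Tendsto (fun N : ℕ => (1 / (Real.log N : ℂ)) *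
    ∑ n ∈ Icc 1 N, (f n : ℂ) / n * ρ ((T^[n]) x)) atTop (𝓝 0)

/-- this for the Möbius and for the Liouville function -/
def MobiusDisjoint (T : X → X) : Prop := LogDisjoint T mu ∧ LogDisjoint T lam

/-- the linear combinations of the elements of `S` are dense -/
def SpansDense (S : Set X) : Prop := (Submodule.span ℂ S).topologicalClosure = ⊤

end general

/-! ### spectral measures -/

section spectral

variable {A : Type u} [NonUnitalCStarAlgebra A]

/-- `φ` is a state (a positive linear functional of norm one) which is invariant under `α` -/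
def InvariantState (α : A → A) (φ : A →L[ℂ] ℂ) : Prop :=
  ‖φ‖ = 1 ∧ (∀ a, 0 ≤ (φ (star a * a)).re ∧ (φ (star a * a)).im = 0) ∧ ∀ a, φ (α a) = φ a

/-- The spectral measure of `x` for the invariant state `φ` is singular: the numbers
`φ (x* αⁿ(x))`, `n ≥ 0`, are the Fourier coefficients of a finite measure on the circle `ℝ/ℤ` which
is singular to Lebesgue measure. -/
def SingularAt (α : A → A) (φ : A →L[ℂ] ℂ) (x : A) : Prop :=
  ∃ σ : Measure UnitAddCircle, IsFiniteMeasure σ ∧
    σ ⟂ₘ (AddCircle.haarAddCircle : Measure UnitAddCircle) ∧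
    ∀ n : ℕ, ∫ t, fourier (n : ℤ) t ∂σ = φ (star x * (α^[n]) x)

/-- the spectral measures of `x` are singular for all invariant states -/
def Singular (α : A → A) (x : A) : Prop :=
  ∀ φ : A →L[ℂ] ℂ, InvariantState α φ → SingularAt α φ x

end spectral

section null

variable {X : Type u} [NormedAddCommGroup X] [NormedSpace ℂ X]

/-- The sequence `a` has its spectrum in `K`: it is annihilated by each absolutely summable
`f : ℤ → ℂ` whose Fourier series `∑ f n exp (2 π i n η)` vanishes for all `η` in an open set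
which contains `K` (`fourier n η` is `exp (2 π i n η)`). -/
def SpectrumIn (K : Set UnitAddCircle) (a : ℤ → X) : Prop :=
  ∀ f : ℤ → ℂ, Summable (fun n => ‖f n‖) →
    (∃ U : Set UnitAddCircle, IsOpen U ∧ K ⊆ U ∧ ∀ η ∈ U, ∑' n, f n * fourier n η = 0) →
    ∑' n, f n • a n = 0

/-- closed sets of Lebesgue measure zero -/
def ClosedNull (K : Set UnitAddCircle) : Prop :=
  IsClosed K ∧ (AddCircle.haarAddCircle : Measure UnitAddCircle) K = 0

/-- The orbit of `x` is a part of a bounded sequence `a : ℤ → X` with `a (n + 1) = T (a n)` whose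
spectrum is contained in a closed null set. (If `T` is an automorphism of a C*-algebra, or an
isometry of `X` onto `X`, then `a n = Tⁿ x` and this says that the Arveson spectrum of `x` is a null
set.) -/
def NullSpectrum (T : X → X) (x : X) : Prop :=
  ∃ (K : Set UnitAddCircle) (a : ℤ → X) (B : ℝ), ClosedNull K ∧ SpectrumIn K a ∧
    (∀ n, ‖a n‖ ≤ B) ∧ a 0 = x ∧ ∀ n, a (n + 1) = T (a n)

end null

/-- the differences of the points of the spectrum of a unitary -/
def Differences {B : Type v} [CStarAlgebra B] (w : unitary B) : Set UnitAddCircle :=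
  {θ | ∃ s t : UnitAddCircle, (fourier 1 s : ℂ) ∈ spectrum ℂ (w : B) ∧
    (fourier 1 t : ℂ) ∈ spectrum ℂ (w : B) ∧ θ = s - t}

/-- `w` implements `α` in the embedding `ι` -/
def ImplementedBy {A : Type u} {B : Type v} [CStarAlgebra B] (w : unitary B) (α : A → A) (ι : A → B) :
    Prop :=
  Function.Injective ι ∧ ∀ x, ι (α x) = (w : B) * ι x * star (w : B)

/-- (A) *-endomorphisms for which the elements with singular spectral measures span a dense
subspace -/
def PartA : Prop :=
  ∀ (A : Type u) [NonUnitalCStarAlgebra A] (α : A →⋆ₙₐ[ℂ] A),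
    SpansDense {x : A | Singular α x} → MobiusDisjoint α

/-- (B) linear contractions for which the vectors with spectrum in closed null sets span a dense
subspace -/
def PartB : Prop :=
  ∀ (X : Type u) [NormedAddCommGroup X] [NormedSpace ℂ X] [CompleteSpace X] (T : X →L[ℂ] X), ‖T‖ ≤ 1 →
    SpansDense {x : X | NullSpectrum T x} → MobiusDisjoint T

/-- all *-endomorphisms which in some embedding are implemented by `w` are Möbius disjoint -/
def Implemented {B : Type v} [CStarAlgebra B] (w : unitary B) : Prop :=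
  ∀ (A : Type u) [NonUnitalCStarAlgebra A] (α : A →⋆ₙₐ[ℂ] A) (ι : A →⋆ₙₐ[ℂ] B),
    ImplementedBy w α ι → MobiusDisjoint α

/-- (C) unitaries `w` such that the differences of the points of the spectrum of `w` form a set of
Lebesgue measure zero -/
def PartC : Prop :=
  ∀ (B : Type v) [CStarAlgebra B] (w : unitary B),
    (AddCircle.haarAddCircle : Measure UnitAddCircle) (Differences w) = 0 → Implemented.{u, v} w

open Pool.Agent.Y326 in
theorem logDisjoint_of {X : Type u} [NormedAddCommGroup X] [NormedSpace ℂ X] (T : X →L[ℂ] X)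
    (hT : ‖T‖ ≤ 1) (h : (Submodule.span ℂ {x : X | Pool.Agent.Y326.Slow T x}).topologicalClosure = ⊤)
    (f : ℕ → ℤ) (hf : ∀ n, |f n| ≤ 1) (hf2 : TwoPoint f) : LogDisjoint T f := by
  have hall : ∀ x, LW f (fun n => (T^[n]) x) := by
    intro x
    refine lw_closure hf hT {x : X | Pool.Agent.Y326.Slow T x} (fun y hy => ?_) x (h ▸ Submodule.mem_top)
    exact slow_lw hf hf2 hT hy
  refine ⟨fun x ε hε => ⟨?_, ?_, ?_⟩, ?_, ?_⟩
  · obtain ⟨M₀, hM₀⟩ := hall x ε hε
    refine ⟨M₀, fun M hM => ?_⟩
    obtain ⟨N₀, hN₀⟩ := hM₀ M hM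
    refine ⟨N₀, fun N hN θ => ?_⟩
    refine le_trans (le_of_eq ?_) (hN₀ N hN θ)
    unfold Pool.Agent.TH833.BL.S
    exact sum_congr rfl fun n _ => by rw [← tws_Ico]; rfl
  · obtain ⟨N₀, hN₀⟩ := (hall x).logmean hf (fun n => iter_le hT n x) ε hε
    refine ⟨N₀, fun N hN θ => ?_⟩
    refine le_trans (le_of_eq ?_) (hN₀ N hN θ)
    congr 1
    exact sum_congr rfl fun n _ => by rw [← tws_single]; rfl
  · obtain ⟨N₀, hN₀⟩ := (hall x).scales hf (fun n => iter_le hT n x) ε hε
    refine ⟨N₀, fun N hN θ => ?_⟩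
    refine le_trans (le_of_eq ?_) (hN₀ N hN θ)
    refine sum_congr ?_ fun _ _ => rfl
    ext n
    rw [mem_filter, mem_filter, ← tws_Icc]
    rfl
  · intro D hD Θ hΘ
    obtain ⟨s, hs1, hs2⟩ := lw_scales hf hT D Θ (fun x _ => hall x) hD hΘ
    classical
    refine ⟨s, ?_, fun x hx θ hθ => ?_⟩
    · have := ld_one s hs1
      unfold LogDensityOne
      convert this
    · have h1 := hs2 x hx θ hθ
      rw [tendsto_zero_iff_norm_tendsto_zero]
      refine h1.congr fun N => ?_
      rw [← tws_Icc]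
      rfl
  · intro ρ x
    rw [Metric.tendsto_atTop]
    intro ε hε
    obtain ⟨N₀, hN₀⟩ := (hall x).logmean hf (fun n => iter_le hT n x) (ε / (2 * (‖ρ‖ + 1))) (by positivity)
    refine ⟨max N₀ 3, fun N hN => ?_⟩
    have h1 := hN₀ N ((le_max_left _ _).trans hN) 0
    have hl := Pool.Agent.TH833.BL.one_le_log ((le_max_right _ _).trans hN)
    rw [dist_zero_right]
    have e : ∑ n ∈ Icc 1 N, (f n : ℂ) / n * ρ ((T^[n]) x) =
        ρ (∑ n ∈ Icc 1 N, (1 / (n : ℂ)) • tm f (fun n => (T^[n]) x) 0 n) := by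
      rw [map_sum]
      refine sum_congr rfl fun n _ => ?_
      unfold tm ex
      rw [map_smul, map_smul, smul_eq_mul, smul_eq_mul]
      simp only [mul_zero, Complex.ofReal_zero, Complex.exp_zero, mul_one]
      ring
    rw [e, norm_mul, norm_div, norm_one, Complex.norm_real, Real.norm_eq_abs, abs_of_nonneg (by linarith)]
    have h0 : (0 : ℝ) < Real.log N := by linarith
    calc 1 / Real.log (N : ℝ) * ‖ρ (∑ n ∈ Icc 1 N, (1 / (n : ℂ)) • tm f (fun n => (T^[n]) x) 0 n)‖ ≤
        1 / Real.log (N : ℝ) * (‖ρ‖ * (ε / (2 * (‖ρ‖ + 1)) * Real.log N)) := by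
          gcongr
          exact (ρ.le_opNorm _).trans (mul_le_mul_of_nonneg_left h1 (norm_nonneg _))
      _ = ε / 2 * (‖ρ‖ / (‖ρ‖ + 1)) := by field_simp
      _ ≤ ε / 2 * 1 := by
          gcongr
          rw [div_le_one (by positivity)]
          linarith
      _ < ε := by linarith

/-- a general criterion -/
theorem of_slow {X : Type u} [NormedAddCommGroup X] [NormedSpace ℂ X] (T : X →L[ℂ] X) (hT : ‖T‖ ≤ 1)
    (S : Set X) (hS : ∀ x ∈ S, Pool.Agent.Y326.Slow T x) (h : SpansDense S) : MobiusDisjoint T := by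
  have h2 : (Submodule.span ℂ {x : X | Pool.Agent.Y326.Slow T x}).topologicalClosure = ⊤ := by
    unfold SpansDense at h
    rw [eq_top_iff, ← h]
    exact Submodule.topologicalClosure_mono (Submodule.span_mono hS)
  exact ⟨logDisjoint_of T hT h2 mu
      (fun n => ArithmeticFunction.abs_moebius_le_one) Pool.Agent.Y326.TwoPoint.mu,
    logDisjoint_of T hT h2 lam Pool.Agent.TH823.MRS.lam_bdd Pool.Agent.Y326.TwoPoint.lam⟩

theorem partA : PartA.{u} := by
  intro A _ α h
  let _ := CStarAlgebra.spectralOrder A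
  have _ := CStarAlgebra.spectralOrderedRing A
  refine of_slow (Pool.Agent.Y326.lin α) (Pool.Agent.Y326.lin_le α) _ (fun x hx => ?_) h
  refine Pool.Agent.Y326.slow_of_singular x fun φ hφ => ?_
  obtain ⟨σ, h1, h2, h3⟩ := hx φ hφ
  exact ⟨σ, h1, h3, h2⟩

theorem partB : PartB.{u} := by
  intro X _ _ _ T hT h
  refine of_slow T hT _ (fun x hx => ?_) h
  obtain ⟨K, a, B, ⟨hK, hK0⟩, hx, hB, h0, h1⟩ := hx
  exact Pool.Agent.Y326.slow_of_null T hT x K hK hK0 a B hB h0 h1 hx

/-- the inner automorphism of a unitary -/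
noncomputable def ad {B : Type v} [CStarAlgebra B] (w : unitary B) : B →L[ℂ] B :=
  LinearMap.mkContinuous
    { toFun := fun x => (w : B) * x * star (w : B)
      map_add' := fun x y => by rw [mul_add, add_mul]
      map_smul' := fun c x => by rw [mul_smul_comm, smul_mul_assoc]; rfl } 1 (fun x => by
    rw [one_mul]
    show ‖(w : B) * x * star (w : B)‖ ≤ ‖x‖
    have h1 : ‖(w : B)‖ ≤ 1 := by
      have := Pool.Agent.TH327.Thin.norm_unitary_zpow w 1
      simpa using this
    refine (norm_mul_le _ _).trans ?_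
    rw [norm_star]
    have h2 := norm_mul_le (w : B) x
    have h3 := norm_nonneg (w : B)
    have h4 := norm_nonneg x
    have h5 := norm_nonneg ((w : B) * x)
    nlinarith)

lemma ad_apply {B : Type v} [CStarAlgebra B] (w : unitary B) (x : B) :
    ad w x = (w : B) * x * star (w : B) := rfl

open scoped Pointwise in
lemma slow_ad {B : Type v} [CStarAlgebra B] (w : unitary B)
    (hw : (AddCircle.haarAddCircle : Measure UnitAddCircle) (Differences w) = 0) (y : B) :
    Pool.Agent.Y326.Slow (ad w) y := by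
  have hc := Pool.Agent.TH327.Dim.isClosed_uspec w
  have hcl : IsClosed (Pool.Agent.TH327.Thin.uspec w + {θ | -θ ∈ Pool.Agent.TH327.Thin.uspec w}) :=
    (hc.isCompact.add (hc.preimage continuous_neg).isCompact).isClosed
  have he : Pool.Agent.TH327.Thin.uspec w + {θ | -θ ∈ Pool.Agent.TH327.Thin.uspec w} ⊆ Differences w := by
    rintro θ ⟨s, hs, t, ht, rfl⟩
    exact ⟨s, -t, hs, ht, by simp⟩
  refine Pool.Agent.Y326.slow_of_null (ad w) (LinearMap.mkContinuous_norm_le _ zero_le_one _) y _ hcl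
    (measure_mono_null he hw) (fun n : ℤ => ((w ^ n : unitary B) : B) * y * ((w ^ (-n) : unitary B) : B))
    ‖y‖ (fun n => ?_) (by simp) (fun n => ?_) (Pool.Agent.TH327.Dim.specIn_uv w w y)
  · have h1 := Pool.Agent.TH327.Thin.norm_unitary_zpow w n
    have h2 := Pool.Agent.TH327.Thin.norm_unitary_zpow w (-n)
    calc _ ≤ ‖((w ^ n : unitary B) : B) * y‖ * ‖((w ^ (-n) : unitary B) : B)‖ := norm_mul_le _ _
      _ ≤ (1 * ‖y‖) * 1 := by
          apply mul_le_mul _ h2 (norm_nonneg _) (by positivity)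
          exact (norm_mul_le _ _).trans (mul_le_mul_of_nonneg_right h1 (norm_nonneg _))
      _ = ‖y‖ := by ring
  · rw [ad_apply]
    have h1 : ((w ^ (n + 1) : unitary B) : B) = (w : B) * ((w ^ n : unitary B) : B) := by
      rw [add_comm, zpow_add, zpow_one]
      rfl
    have h2 : ((w ^ (-(n + 1)) : unitary B) : B) = ((w ^ (-n) : unitary B) : B) * star (w : B) := by
      rw [neg_add, zpow_add, zpow_neg_one]
      rfl
    rw [h1, h2]
    simp only [mul_assoc]

theorem partC : PartC.{u, v} := by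
  intro B _ w hw A _ α ι hι
  obtain ⟨hι, hα⟩ := hι
  refine of_slow (Pool.Agent.Y326.lin α) (Pool.Agent.Y326.lin_le α) Set.univ (fun x _ => ?_) ?_
  · intro η hη
    obtain ⟨L, hL, E, iE, iE', c, hc1, hc2⟩ := slow_ad w hw (ι x) η hη
    refine ⟨L, hL, E, iE, iE', c, hc1, fun v hv => ?_⟩
    have h1 : ∀ h : ℕ, ι (((Pool.Agent.Y326.lin α)^[h]) x) = ((ad w)^[h]) (ι x) := by
      intro h
      induction h with
      | zero => rfl
      | succ h ih =>
        rw [Function.iterate_succ_apply', Function.iterate_succ_apply', ← ih, ad_apply]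
        exact hα _
    have h2 : ‖∑ h ∈ range L, v h • ((Pool.Agent.Y326.lin α)^[h]) x‖ =
        ‖∑ h ∈ range L, v h • ((ad w)^[h]) (ι x)‖ := by
      rw [← NonUnitalStarAlgHom.norm_map ι hι, map_sum]
      congr 1
      exact sum_congr rfl fun h _ => by rw [map_smul, h1]
    rw [h2]
    exact hc2 v hv
  · unfold SpansDense
    rw [Submodule.span_univ, eq_top_iff]
    intro x _
    exact subset_closure (show x ∈ ((⊤ : Submodule ℂ A) : Set A) from trivial)

/-- **Logarithmic Möbius disjointness for singular spectrum.** -/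
theorem result : PartA.{u} ∧ PartB.{u} ∧ PartC.{u, v} := ⟨partA, partB, partC⟩

end Pool.Agent.Results.MP_7a8f48_an.SingularSpectrum
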