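import Pool.Agent.Y326.Appr

/-!
# Logarithmic Möbius disjointness for automorphisms of C*-algebras of sublinear approximation rank

The proof uses the two-point correlations of the Möbius function in logarithmic mean (Tao's theorem,
`Pool.Agent.Y326.Chw2`, which is proved there from the starting files).
-/

set_option autoImplicit false

open Filter Topology Finset

namespace Pool.Agent.Results.MP_7a8f48_an.SublinearRank

universe u v

/-- the Möbius function -/
def mu (n : ℕ) : ℤ := ArithmeticFunction.moebius n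

/-- the Liouville function -/
def lam (n : ℕ) : ℤ := (-1) ^ ArithmeticFunction.cardFactors n

section general

variable {X : Type u} [NormedAddCommGroup X] [NormedSpace ℂ X]

/-- the sum of `f(m) e(mθ) Tᵐ(x)` over the `m` in `s`, where `e(t) = exp (2πit)` -/
noncomputable def twistedSum (T : X → X) (f : ℕ → ℤ) (θ : ℝ) (s : Finset ℕ) (x : X) : X :=
  ∑ m ∈ s, ((f m : ℂ) * Complex.exp (2 * Real.pi * Complex.I * (m * θ))) • (T^[m]) x

/-- the sums over the windows of length `M` are small, in logarithmic mean over their position -/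
def SmallWindows (T : X → X) (f : ℕ → ℤ) (x : X) (ε : ℝ) : Prop :=
  ∃ M₀ : ℕ, ∀ M : ℕ, M₀ ≤ M → ∃ N₀ : ℕ, ∀ N : ℕ, N₀ ≤ N → ∀ θ : ℝ,
    ∑ n ∈ Icc 1 N, (1 / (n : ℝ)) * ‖twistedSum T f θ (Ico n (n + M)) x‖ ≤ ε * M * Real.log N

/-- the logarithmic means are small -/
def SmallLogMean (T : X → X) (f : ℕ → ℤ) (x : X) (ε : ℝ) : Prop :=
  ∃ N₀ : ℕ, ∀ N : ℕ, N₀ ≤ N → ∀ θ : ℝ,
    ‖∑ n ∈ Icc 1 N, (1 / (n : ℂ)) • twistedSum T f θ {n} x‖ ≤ ε * Real.log N

open Classical in
/-- the means over `[1, N]` are small for the `N` outside a set of small logarithmic density -/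
def SmallMostN (T : X → X) (f : ℕ → ℤ) (x : X) (ε : ℝ) : Prop :=
  ∃ Z₀ : ℕ, ∀ Z : ℕ, Z₀ ≤ Z → ∀ θ : ℝ,
    ∑ N ∈ (Icc 1 Z).filter (fun N : ℕ => ε * N < ‖twistedSum T f θ (Icc 1 N) x‖), 1 / (N : ℝ) ≤
      ε * Real.log Z

/-- The orbit of `x` is disjoint from `f` in norm, uniformly in the twist by `e(mθ)`: in the means
over windows, in logarithmic mean, and in mean over `[1, N]` for most `N`. -/
def NormDisjoint (T : X → X) (f : ℕ → ℤ) (x : X) : Prop :=
  ∀ ε : ℝ, 0 < ε → SmallWindows T f x ε ∧ SmallLogMean T f x ε ∧ SmallMostN T f x ε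

open Classical in
/-- a set of positive integers of logarithmic density one -/
def LogDensityOne (s : Set ℕ) : Prop :=
  Tendsto (fun Z : ℕ => (1 / Real.log (Z : ℝ)) * ∑ n ∈ (Icc 1 Z).filter (· ∈ s), (1 / (n : ℝ)))
    atTop (𝓝 1)

/-- For each separable set `D` and each countable set `Θ` there is one set `s` of logarithmic density
one such that the averages over `[1, N]` tend to zero in norm for `N → ∞` in `s`, for all `x` in `D`
and all twists in `Θ`. -/
def AlongDensityOne (T : X → X) (f : ℕ → ℤ) : Prop :=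
  ∀ D : Set X, TopologicalSpace.IsSeparable D → ∀ Θ : Set ℝ, Θ.Countable →
    ∃ s : Set ℕ, LogDensityOne s ∧ ∀ x ∈ D, ∀ θ ∈ Θ,
      Tendsto (fun N : ℕ => (1 / (N : ℂ)) • twistedSum T f θ (Icc 1 N) x) (atTop ⊓ 𝓟 s) (𝓝 0)

/-- disjointness from `f` in logarithmic mean and along sets of logarithmic density one, for all
vectors -/
def LogDisjoint (T : X → X) (f : ℕ → ℤ) : Prop :=
  (∀ x, NormDisjoint T f x) ∧ AlongDensityOne T f ∧
  ∀ (ρ : X →L[ℂ] ℂ) (x : X), Tendsto (fun N : ℕ => (1 / (Real.log N : ℂ)) *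
    ∑ n ∈ Icc 1 N, (f n : ℂ) / n * ρ ((T^[n]) x)) atTop (𝓝 0)

/-- this for the Möbius and for the Liouville function -/
def MobiusDisjoint (T : X → X) : Prop := LogDisjoint T mu ∧ LogDisjoint T lam

/-- the linear combinations of the elements of `S` are dense -/
def SpansDense (S : Set X) : Prop := (Submodule.span ℂ S).topologicalClosure = ⊤

/-- The vector `x` is slow for `T`: for each `η > 0` there are `L ≥ 1` and vectors
`c 0, …, c (L - 1)` of a Hilbert space with `∑ ‖c h‖² ≤ (η L)²` such that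
`‖∑ v h Tʰ x‖ ≤ ‖∑ v h c h‖ + η L` for all coefficients with `|v h| ≤ 1`. -/
def Slow (T : X → X) (x : X) : Prop := ∀ η : ℝ, 0 < η → ∃ L : ℕ, 1 ≤ L ∧
  ∃ (E : Type) (_ : NormedAddCommGroup E) (_ : InnerProductSpace ℂ E) (c : ℕ → E),
    ∑ h ∈ range L, ‖c h‖ ^ 2 ≤ (η * L) ^ 2 ∧
    ∀ v : ℕ → ℂ, (∀ h, ‖v h‖ ≤ 1) →
      ‖∑ h ∈ range L, v h • (T^[h]) x‖ ≤ ‖∑ h ∈ range L, v h • c h‖ + η * L

/-- The normed space `F` is `M_k` with the operator norm, up to linear isometric isomorphism. -/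
def IsMatrixAlgebra (F : Type) [NormedAddCommGroup F] [NormedSpace ℂ F] (k : ℕ) : Prop :=
  Nonempty (F ≃ₗᵢ[ℂ] (EuclideanSpace ℂ (Fin k) →L[ℂ] EuclideanSpace ℂ (Fin k)))

/-- There are linear contractions `φ : X → F` and `ψ : F → Y`, where `F` is `M_k`, such that the mean
of `‖ψ (φ a) - π a‖` over the `a = Tʰ(x)`, `0 ≤ h < n`, is at most `δ`. (If
`rcp({x, T x, …, Tⁿ⁻¹ x}, δ) ≤ k` then this holds with completely positive maps, and with
`‖ψ (φ a) - π a‖ < δ` for all these `a`.) -/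
def Approx {Y : Type v} [NormedAddCommGroup Y] [NormedSpace ℂ Y] (π : X → Y) (T : X → X) (x : X)
    (n : ℕ) (δ : ℝ) (k : ℕ) : Prop :=
  ∃ (F : Type) (_ : NormedAddCommGroup F) (_ : NormedSpace ℂ F) (φ : X →ₗ[ℂ] F) (ψ : F →ₗ[ℂ] Y),
    IsMatrixAlgebra F k ∧ (∀ a, ‖φ a‖ ≤ ‖a‖) ∧ (∀ b, ‖ψ b‖ ≤ ‖b‖) ∧
    ∑ h ∈ range n, ‖ψ (φ ((T^[h]) x)) - π ((T^[h]) x)‖ ≤ δ * n

/-- The approximation rank of the orbit of `x` is sublinear: for each `ε > 0` there are `n ≥ 1` and
`k ≤ ε n` such that the `Tʰ(x)`, `0 ≤ h < n`, are approximated through `M_k` up to `ε`. This holds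
if `liminf (1/n) rcp({x, T x, …, Tⁿ⁻¹ x}, δ) = 0` for each `δ > 0`. -/
def Sublinear {Y : Type v} [NormedAddCommGroup Y] [NormedSpace ℂ Y] (π : X → Y) (T : X → X) (x : X) :
    Prop :=
  ∀ ε : ℝ, 0 < ε → ∃ n : ℕ, 1 ≤ n ∧ ∃ k : ℕ, (k : ℝ) ≤ ε * n ∧ Approx π T x n ε k

/-- the elements whose orbits have sublinear approximation rank span a dense subspace -/
def SpansSublinear {Y : Type v} [NormedAddCommGroup Y] [NormedSpace ℂ Y] (π : X → Y) (T : X → X) : Prop :=
  SpansDense {x : X | Sublinear π T x}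

end general

open Pool.Agent.Y326 in
theorem logDisjoint_of {X : Type u} [NormedAddCommGroup X] [NormedSpace ℂ X] (T : X →L[ℂ] X)
    (hT : ‖T‖ ≤ 1) (h : (Submodule.span ℂ {x : X | Slow T x}).topologicalClosure = ⊤)
    (f : ℕ → ℤ) (hf : ∀ n, |f n| ≤ 1) (hf2 : TwoPoint f) : LogDisjoint T f := by
  have hall : ∀ x, LW f (fun n => (T^[n]) x) := by
    intro x
    refine lw_closure hf hT {x : X | Slow T x} (fun y hy => ?_) x (h ▸ Submodule.mem_top)
    exact slow_lw hf hf2 hT hy
  refine ⟨fun x ε hε => ⟨?_, ?_, ?_⟩, ?_, ?_⟩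
  · obtain ⟨M₀, hM₀⟩ := hall x ε hε
    refine ⟨M₀, fun M hM => ?_⟩
    obtain ⟨N₀, hN₀⟩ := hM₀ M hM
    refine ⟨N₀, fun N hN θ => ?_⟩
    refine le_trans (le_of_eq ?_) (hN₀ N hN θ)
    unfold Pool.Agent.TH833.BL.S
    exact sum_congr rfl fun n _ => by rw [← tws_Ico]; rfl
  · obtain ⟨N₀, hN₀⟩ := (hall x).logmean hf (fun n => iter_le hT n x) ε hε
    refine ⟨N₀, fun N hN θ => ?_⟩
    refine le_trans (le_of_eq ?_) (hN₀ N hN θ)
    congr 1
    exact sum_congr rfl fun n _ => by rw [← tws_single]; rfl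
  · obtain ⟨N₀, hN₀⟩ := (hall x).scales hf (fun n => iter_le hT n x) ε hε
    refine ⟨N₀, fun N hN θ => ?_⟩
    refine le_trans (le_of_eq ?_) (hN₀ N hN θ)
    refine sum_congr ?_ fun _ _ => rfl
    ext n
    rw [mem_filter, mem_filter, ← tws_Icc]
    rfl
  · intro D hD Θ hΘ
    obtain ⟨s, hs1, hs2⟩ := lw_scales hf hT D Θ (fun x _ => hall x) hD hΘ
    classical
    refine ⟨s, ?_, fun x hx θ hθ => ?_⟩
    · have := ld_one s hs1
      unfold LogDensityOne
      convert this
    · have h1 := hs2 x hx θ hθ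
      rw [tendsto_zero_iff_norm_tendsto_zero]
      refine h1.congr fun N => ?_
      rw [← tws_Icc]
      rfl
  · intro ρ x
    rw [Metric.tendsto_atTop]
    intro ε hε
    obtain ⟨N₀, hN₀⟩ := (hall x).logmean hf (fun n => iter_le hT n x) (ε / (2 * (‖ρ‖ + 1))) (by positivity)
    refine ⟨max N₀ 3, fun N hN => ?_⟩
    have h1 := hN₀ N ((le_max_left _ _).trans hN) 0
    have hl := Pool.Agent.TH833.BL.one_le_log ((le_max_right _ _).trans hN)
    rw [dist_zero_right]
    have e : ∑ n ∈ Icc 1 N, (f n : ℂ) / n * ρ ((T^[n]) x) =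
        ρ (∑ n ∈ Icc 1 N, (1 / (n : ℂ)) • tm f (fun n => (T^[n]) x) 0 n) := by
      rw [map_sum]
      refine sum_congr rfl fun n _ => ?_
      unfold tm ex
      rw [map_smul, map_smul, smul_eq_mul, smul_eq_mul]
      simp only [mul_zero, Complex.ofReal_zero, Complex.exp_zero, mul_one]
      ring
    rw [e, norm_mul, norm_div, norm_one, Complex.norm_real, Real.norm_eq_abs, abs_of_nonneg (by linarith)]
    have h0 : (0 : ℝ) < Real.log N := by linarith
    calc 1 / Real.log (N : ℝ) * ‖ρ (∑ n ∈ Icc 1 N, (1 / (n : ℂ)) • tm f (fun n => (T^[n]) x) 0 n)‖ ≤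
        1 / Real.log (N : ℝ) * (‖ρ‖ * (ε / (2 * (‖ρ‖ + 1)) * Real.log N)) := by
          gcongr
          exact (ρ.le_opNorm _).trans (mul_le_mul_of_nonneg_left h1 (norm_nonneg _))
      _ = ε / 2 * (‖ρ‖ / (‖ρ‖ + 1)) := by field_simp
      _ ≤ ε / 2 * 1 := by
          gcongr
          rw [div_le_one (by positivity)]
          linarith
      _ < ε := by linarith

/-- the *-endomorphism `α` of `A` is Möbius disjoint if its approximation rank in `B` is sublinear -/
def Holds {A : Type u} [NonUnitalCStarAlgebra A] {B : Type v} [NonUnitalCStarAlgebra B]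
    (π : A →⋆ₙₐ[ℂ] B) (α : A →⋆ₙₐ[ℂ] A) : Prop :=
  SpansSublinear π α → MobiusDisjoint α

/-- for *-endomorphisms `α` of C*-algebras `A` with an embedding `π` in a C*-algebra `B` (which is
`B(H)` for a faithful representation of `A` on `H`) -/
def PartA : Prop :=
  ∀ (A : Type u) [NonUnitalCStarAlgebra A] (B : Type v) [NonUnitalCStarAlgebra B] (π : A →⋆ₙₐ[ℂ] B)
    (α : A →⋆ₙₐ[ℂ] A), Function.Injective π → Holds π α

/-- for linear contractions `T` of normed spaces `X` -/
def PartB : Prop :=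
  ∀ (X : Type u) [NormedAddCommGroup X] [NormedSpace ℂ X] (T : X →L[ℂ] X), ‖T‖ ≤ 1 →
    SpansDense {x : X | Slow T x} → MobiusDisjoint T

/-- **Logarithmic Möbius disjointness for sublinear approximation rank.**
(a) Let `α` be a *-endomorphism of a C*-algebra `A` with a faithful representation `π`, such that the
elements whose orbits have sublinear approximation rank span a dense subspace of `A`. Then `α` is
disjoint from the Möbius and from the Liouville function in logarithmic mean and along sets of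
logarithmic density one, in norm. (b) The same holds for a linear contraction of a normed space whose
slow vectors span a dense subspace. -/
theorem result : PartA.{u, v} ∧ PartB.{u} := by
  have hb : PartB.{u} := fun X _ _ T hT h =>
    ⟨logDisjoint_of T hT h mu (fun n => ArithmeticFunction.abs_moebius_le_one)
      Pool.Agent.Y326.TwoPoint.mu,
     logDisjoint_of T hT h lam Pool.Agent.TH823.MRS.lam_bdd Pool.Agent.Y326.TwoPoint.lam⟩
  refine ⟨?_, hb⟩
  intro A _ B _ π α hπ h
  set T : A →L[ℂ] A := LinearMap.mkContinuous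
    ({ toFun := α, map_add' := map_add α, map_smul' := map_smul α } : A →ₗ[ℂ] A) 1 (fun a => by
      rw [one_mul]
      exact NonUnitalStarAlgHom.norm_apply_le α a) with hTd
  have hT : ‖T‖ ≤ 1 := LinearMap.mkContinuous_norm_le _ zero_le_one _
  set p : A →L[ℂ] B := LinearMap.mkContinuous
    ({ toFun := π, map_add' := map_add π, map_smul' := map_smul π } : A →ₗ[ℂ] B) 1 (fun a => by
      rw [one_mul]
      exact NonUnitalStarAlgHom.norm_apply_le π a) with hpd
  have hp : ∀ a, ‖p a‖ = ‖a‖ := fun a => NonUnitalStarAlgHom.norm_map π hπ a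
  have hsub : {x : A | Sublinear π α x} ⊆ {x : A | Slow T x} := by
    intro x hx
    refine Pool.Agent.Y326.slow_of_rank T hT p hp x fun ε hε => ?_
    obtain ⟨n, hn, k, hk, F, iF, iF', φ, ψ, ⟨e⟩, hφ, hψ, happ⟩ := hx ε hε
    refine ⟨n, hn, k, hk,
      LinearMap.mkContinuous ((e.toLinearEquiv : F →ₗ[ℂ] _).comp φ) 1 (fun a => ?_),
      LinearMap.mkContinuous (ψ.comp (e.symm.toLinearEquiv : _ →ₗ[ℂ] F)) 1 (fun b => ?_),
      LinearMap.mkContinuous_norm_le _ zero_le_one _, LinearMap.mkContinuous_norm_le _ zero_le_one _, ?_⟩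
    · rw [one_mul]
      exact (e.norm_map (φ a)).le.trans (hφ a)
    · rw [one_mul]
      exact (hψ _).trans (e.symm.norm_map b).le
    · refine le_trans (le_of_eq ?_) happ
      refine sum_congr rfl fun h _ => ?_
      show ‖ψ (e.symm (e (φ ((α^[h]) x)))) - π ((α^[h]) x)‖ = _
      rw [LinearIsometryEquiv.symm_apply_apply]
  have h2 : SpansDense {x : A | Slow T x} := by
    unfold SpansSublinear SpansDense at h
    unfold SpansDense
    rw [eq_top_iff, ← h]
    exact Submodule.topologicalClosure_mono (Submodule.span_mono hsub)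
  exact hb A T hT h2

end Pool.Agent.Results.MP_7a8f48_an.SublinearRank
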