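import Pool.Agent.TH261.NP.TopS

/-!
# Möbius disjointness of endomorphisms of C*-algebras generated by tame unitaries

The main steps are in the starting files `Pool.Agent.TH261.AB` and `Pool.Agent.TH261.NP`.
-/

set_option autoImplicit false

open Filter Topology

namespace Pool.Agent.Results.MP_7a8f48_an.TameUnitaries

/-- the Möbius function with complex values -/
noncomputable def mu (n : ℕ) : ℂ := ((ArithmeticFunction.moebius n : ℤ) : ℂ)

section defs

variable {W : Type} [CStarAlgebra W]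

/-- `w` is an eigenvector of `γ`, with an eigenvalue of modulus one -/
def Eigenvector (γ : W →⋆ₐ[ℂ] W) (w : W) : Prop := ∃ l : ℂ, ‖l‖ = 1 ∧ γ w = l • w

/-- `z` is a central unitary -/
def CentralUnitary (z : W) : Prop := z ∈ unitary W ∧ ∀ a : W, z * a = a * z

/-- the map `h ↦ h* γᵐ(h)` -/
def diff (γ : W →⋆ₐ[ℂ] W) (m : ℕ) (h : W) : W := star h * (γ^[m]) h

/-- The unitary `g` is tame for `γ`: for some `m > 0` and some `k` the `k`-th iterate of the map
`D : h ↦ h* γᵐ(h)` maps `g` to `1`, and the unitaries `γⁿ(D g)`, `n ≥ 0`, commute with each other up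
to central unitaries. -/
def Tame (γ : W →⋆ₐ[ℂ] W) (g : W) : Prop :=
  g ∈ unitary W ∧ ∃ m : ℕ, 0 < m ∧ (∃ k : ℕ, ((diff γ m)^[k]) g = 1) ∧
    ∀ n l : ℕ, ∃ z : W, CentralUnitary z ∧ (γ^[n]) (diff γ m g) * (γ^[l]) (diff γ m g) =
      z * ((γ^[l]) (diff γ m g) * (γ^[n]) (diff γ m g))

/-- the products `v * y * w` with `y` in `S` and eigenvectors `v`, `w` of `γ` span a dense subspace -/
def Generates (γ : W →⋆ₐ[ℂ] W) (S : Set W) : Prop :=
  (Submodule.span ℂ {x : W | ∃ y ∈ S, ∃ v w, Eigenvector γ v ∧ Eigenvector γ w ∧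
    x = v * y * w}).topologicalClosure = ⊤

/-- Möbius disjointness of the orbits, in the strong operator topology of all representations -/
def StronglyDisjoint (γ : W →⋆ₐ[ℂ] W) : Prop :=
  ∀ (x : W) (K : Type) [NormedAddCommGroup K] [InnerProductSpace ℂ K] [CompleteSpace K]
    (π : W →⋆ₐ[ℂ] (K →L[ℂ] K)) (ξ : K),
    Tendsto (fun N : ℕ => (1 / (N : ℂ)) • ∑ n ∈ Finset.Icc 1 N, mu n • π ((γ^[n]) x) ξ) atTop (𝓝 0)

/-- Möbius disjointness for the products of the values of any number of bounded functionals along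
any orbits; for `r = 1` this is the Möbius disjointness of the problem, for all bounded functionals -/
def FunctionalsDisjoint (γ : W →⋆ₐ[ℂ] W) : Prop :=
  ∀ (r : ℕ) (ρ : Fin r → (W →L[ℂ] ℂ)) (x : Fin r → W),
    Tendsto (fun N : ℕ => (1 / (N : ℂ)) * ∑ n ∈ Finset.Icc 1 N,
      mu n * ∏ i, ρ i ((γ^[n]) (x i))) atTop (𝓝 0)

/-- Möbius disjointness, with all continuous functions `f` and all points, of all the compact
systems of functionals: a self-map `T` of a compact space `X` whose points are separated by the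
values `ρ i x a` of bounded functionals `ρ i x` on `W`, `i ∈ I`, which are continuous in `x`, with
`ρ i (T x) = ρ i x ∘ γ`. For example `X` is the state space of `W` with the weak* topology and
`T ρ = ρ ∘ γ`. -/
def SystemsDisjoint (γ : W →⋆ₐ[ℂ] W) : Prop :=
  ∀ (X : Type) [TopologicalSpace X] [CompactSpace X] (T : X → X) (I : Type)
    (ρ : I → X → (W →L[ℂ] ℂ)), (∀ i a, Continuous fun x => ρ i x a) →
    (∀ i x a, ρ i (T x) a = ρ i x (γ a)) → (∀ x y, x ≠ y → ∃ i a, ρ i x a ≠ ρ i y a) →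
    ∀ (f : C(X, ℂ)) (x : X), Tendsto (fun N : ℕ => (1 / (N : ℂ)) *
      ∑ n ∈ Finset.Icc 1 N, mu n * f ((T^[n]) x)) atTop (𝓝 0)

/-- the three forms of Möbius disjointness -/
def Disjoint3 (γ : W →⋆ₐ[ℂ] W) : Prop :=
  StronglyDisjoint γ ∧ FunctionalsDisjoint γ ∧ SystemsDisjoint γ

/-- `α` is Möbius disjoint in the three forms, and so is each system `(B, β)` which is generated
by an equivariant image of `(A, α)` and eigenvectors of `β`, and each system `(V, δ)` which embeds in
such a `(B, β)`. -/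
def AllDisjoint {A : Type} [CStarAlgebra A] (α : A →⋆ₐ[ℂ] A) : Prop :=
  Disjoint3 α ∧
  ∀ (B : Type) [CStarAlgebra B] (β : B →⋆ₐ[ℂ] B) (ι : A →⋆ₐ[ℂ] B),
    (∀ a, β (ι a) = ι (α a)) → Generates β (Set.range ι) →
    Disjoint3 β ∧
    ∀ (V : Type) [CStarAlgebra V] (δ : V →⋆ₐ[ℂ] V) (κ : V →⋆ₐ[ℂ] B), Function.Injective κ →
      (∀ v, κ (δ v) = β (κ v)) → Disjoint3 δ

/-- the difference map of `σᵐ` -/
def gdiff {G : Type} [Group G] (σ : G →* G) (m : ℕ) (g : G) : G := g⁻¹ * (σ^[m]) g

/-- the endomorphism `σ` is locally quasi-unipotent: for each `g` some iterate of the map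
`h ↦ h⁻¹ σᵐ(h)`, for some `m > 0`, maps `g` to `1` -/
def QuasiUnipotent {G : Type} [Group G] (σ : G →* G) : Prop :=
  ∀ g : G, ∃ m : ℕ, 0 < m ∧ ∃ k : ℕ, ((gdiff σ m)^[k]) g = 1

end defs

open Pool.Agent.Helper188.NCM Pool.Agent.TH261.AB Pool.Agent.TH261.NP

section proofs

variable {U : Type} [CStarAlgebra U]

/-- the restriction to the unitary group -/
def sg (α : U →⋆ₐ[ℂ] U) : unitary U →* unitary U where
  toFun g := ⟨α g, by
    constructor
    · rw [← map_star, ← map_mul, Unitary.star_mul_self_of_mem g.2, map_one]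
    · rw [← map_star, ← map_mul, Unitary.mul_star_self_of_mem g.2, map_one]⟩
  map_one' := Subtype.ext (by simp)
  map_mul' g h := Subtype.ext (by simp)

theorem sg_iter (α : U →⋆ₐ[ℂ] U) (n : ℕ) (g : unitary U) :
    ((((sg α)^[n]) g : unitary U) : U) = (α^[n]) (g : U) := by
  induction n generalizing g with
  | zero => rfl
  | succ n ih => rw [Function.iterate_succ_apply, Function.iterate_succ_apply, ih]; rfl

theorem Dg_coe (α : U →⋆ₐ[ℂ] U) (m : ℕ) (g : unitary U) :
    ((Dg (sg α) m g : unitary U) : U) = diff α m (g : U) := by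
  rw [Dg, diff, Submonoid.coe_mul, sg_iter]
  rfl

theorem Dg_iter (α : U →⋆ₐ[ℂ] U) (m k : ℕ) (g : unitary U) :
    (((Dg (sg α) m)^[k] g : unitary U) : U) = ((diff α m)^[k]) (g : U) := by
  induction k generalizing g with
  | zero => rfl
  | succ k ih => rw [Function.iterate_succ_apply, Function.iterate_succ_apply, ih, Dg_coe]

theorem twC (α : U →⋆ₐ[ℂ] U) : TwC α (fun g : unitary U => (g : U)) :=
  ⟨fun g => g.2, fun g h => ⟨1, FC.one α, by simp⟩⟩

theorem cov (α : U →⋆ₐ[ℂ] U) (g : unitary U) :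
    ∃ z ∈ FC α, α ((g : unitary U) : U) = z * ((sg α g : unitary U) : U) :=
  ⟨1, FC.one α, by rw [one_mul]; rfl⟩

theorem qg_of_tame {α : U →⋆ₐ[ℂ] U} {g : unitary U} (h : Tame α (g : U)) :
    QG (sg α) (fun g : unitary U => (g : U)) g := by
  obtain ⟨-, m, hm, ⟨k, hk⟩, hc⟩ := h
  refine ⟨m, hm, ⟨k, Subtype.ext ?_⟩, fun n l => ?_⟩
  · rw [Dg_iter, hk]; rfl
  · obtain ⟨z, hz, h1⟩ := hc n l
    refine ⟨z, hz, ?_⟩
    simp only [sg_iter, Dg_coe]
    exact h1

theorem mu_eq (n : ℕ) : mu n = mob n := rfl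

theorem sum_eq {K : Type*} [NormedAddCommGroup K] [NormedSpace ℂ K] {a : ℕ → K}
    (h : Tendsto (vav fun n => mob n • a n) atTop (𝓝 0)) :
    Tendsto (fun N : ℕ => (1 / (N : ℂ)) • ∑ n ∈ Finset.Icc 1 N, mu n • a n) atTop (𝓝 0) :=
  vav_Icc (a := fun n => mob n • a n) (by simp [mob]) h

theorem ext_functional {V : Type} [CStarAlgebra V] (κ : V →⋆ₐ[ℂ] U) (hκ : Function.Injective κ)
    (φ : V →L[ℂ] ℂ) : ∃ ψ : U →L[ℂ] ℂ, ∀ x, ψ (κ x) = φ x := by
  have hiso : ∀ x : V, ‖κ x‖ = ‖x‖ := fun x => NonUnitalStarAlgHom.norm_map κ hκ x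
  let κl : V →ₗᵢ[ℂ] U := ⟨κ.toAlgHom.toLinearMap, hiso⟩
  let e := κl.equivRange
  let p : Submodule ℂ U := LinearMap.range κl.toLinearMap
  obtain ⟨ψ, hψ, -⟩ := exists_extension_norm_eq p (φ.comp
    (e.symm.toContinuousLinearEquiv : p →L[ℂ] V))
  refine ⟨ψ, fun x => ?_⟩
  have := hψ (e x)
  have h2 : ((e x : p) : U) = κ x := rfl
  rw [h2] at this
  rw [this]
  simp

/-- products of functionals, lists -/
def Multi (γ : U →⋆ₐ[ℂ] U) : Prop := ∀ L : List ((U →L[ℂ] ℂ) × U),
  Tendsto (vav fun n => mob n * (L.map fun p => p.1 ((γ^[n]) p.2)).prod) atTop (𝓝 0)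

theorem multi_embed {V : Type} [CStarAlgebra V] {β : U →⋆ₐ[ℂ] U} (h : Multi β) (δ : V →⋆ₐ[ℂ] V)
    (κ : V →⋆ₐ[ℂ] U) (hκ : Function.Injective κ) (hδ : ∀ v, κ (δ v) = β (κ v)) : Multi δ := by
  have hn : ∀ (n : ℕ) v, κ ((δ^[n]) v) = (β^[n]) (κ v) := by
    intro n
    induction n with
    | zero => intro v; rfl
    | succ n ih =>
      intro v
      rw [Function.iterate_succ_apply', Function.iterate_succ_apply', hδ, ih]
  choose ψ hψ using ext_functional κ hκ
  intro L
  refine (h (L.map fun p => (ψ p.1, κ p.2))).congr fun N => ?_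
  rw [vav, vav]
  congr 1
  refine Finset.sum_congr rfl fun n _ => ?_
  rw [List.map_map]
  congr 2
  refine List.map_congr_left fun p _ => ?_
  simp only [Function.comp_apply]
  rw [← hn, hψ]

theorem disjoint3_of {γ : U →⋆ₐ[ℂ] U} (h1 : ∀ x, Good γ x) (h2 : Multi γ) : Disjoint3 γ := by
  refine ⟨fun x K _ _ _ π ξ => sum_eq (h1 x K π ξ), fun r ρ x => ?_,
    fun X _ _ T I ρ hc hρ hs f x => ?_⟩
  · have h3 := sum_eq (K := ℂ) (h2 (List.ofFn fun i => (ρ i, x i)))
    refine h3.congr fun N => ?_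
    rw [smul_eq_mul]
    congr 1
    refine Finset.sum_congr rfl fun n _ => ?_
    rw [smul_eq_mul, List.map_ofFn, List.prod_ofFn]
    rfl
  · exact sum_eq (K := ℂ) (top_of_multi γ h2 T ρ hc hρ hs f x)

theorem allDisjoint_of_tame {α : U →⋆ₐ[ℂ] U} (h : Generates α {g | Tame α g}) : AllDisjoint α := by
  set S : Set (unitary U) := {g | Tame α (g : U)} with hS
  have hd : (Submodule.span ℂ (Prods α ((fun g : unitary U => (g : U)) '' S))).topologicalClosure =
      ⊤ := by
    have e : Prods α ((fun g : unitary U => (g : U)) '' S) =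
        {x : U | ∃ y ∈ {g | Tame α g}, ∃ v w, Eigenvector α v ∧ Eigenvector α w ∧
          x = v * y * w} := by
      ext x
      constructor
      · rintro ⟨_, ⟨g, hg, rfl⟩, v, w, hv, hw, rfl⟩
        exact ⟨g, hg, v, w, hv, hw, rfl⟩
      · rintro ⟨y, hy, v, w, hv, hw, rfl⟩
        exact ⟨y, ⟨⟨y, hy.1⟩, hy, rfl⟩, v, w, hv, hw, rfl⟩
    rw [e]
    exact h
  have key : ∀ (B : Type) [CStarAlgebra B] (β : B →⋆ₐ[ℂ] B) (ι : U →⋆ₐ[ℂ] B),
      (∀ a, β (ι a) = ι (α a)) → Generates β (Set.range ι) → (∀ x, Good β x) ∧ Multi β := by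
    intro B _ β ι hι hgen
    have hσ : ∀ g ∈ S, QG (sg α) (fun g : unitary U => (g : U)) g := fun g hg => qg_of_tame hg
    exact ⟨good_all (twC α) (cov α) hσ hd β ι hι hgen, multi (twC α) (cov α) hσ hd β ι hι hgen⟩
  refine ⟨?_, fun B _ β ι hι hgen => ?_⟩
  · have h1 : Generates α (Set.range (StarAlgHom.id ℂ U)) := by
      have h2 : Submodule.span ℂ {x : U | ∃ y ∈ {g | Tame α g}, ∃ v w, Eigenvector α v ∧
          Eigenvector α w ∧ x = v * y * w} ≤ Submodule.span ℂ {x : U |
          ∃ y ∈ Set.range (StarAlgHom.id ℂ U), ∃ v w, Eigenvector α v ∧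
          Eigenvector α w ∧ x = v * y * w} := by
        refine Submodule.span_mono ?_
        rintro x ⟨y, -, v, w, hv, hw, rfl⟩
        exact ⟨y, ⟨y, rfl⟩, v, w, hv, hw, rfl⟩
      have h3 := Submodule.topologicalClosure_mono h2
      have h4 : (Submodule.span ℂ {x : U | ∃ y ∈ {g | Tame α g}, ∃ v w, Eigenvector α v ∧
          Eigenvector α w ∧ x = v * y * w}).topologicalClosure = ⊤ := h
      rw [h4, top_le_iff] at h3
      exact h3
    obtain ⟨h2, h3⟩ := key U α (StarAlgHom.id ℂ U) (fun a => rfl) h1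
    exact disjoint3_of h2 h3
  · obtain ⟨h2, h3⟩ := key B β ι hι hgen
    exact ⟨disjoint3_of h2 h3, fun V _ δ κ hκ hδ =>
      disjoint3_of (Good.embed h2 δ κ hκ hδ) (multi_embed h3 δ κ hκ hδ)⟩

/-! ### projective representations of groups -/

/-- scalars of modulus one -/
def Sc (x y : U) : Prop := ∃ c : ℂ, ‖c‖ = 1 ∧ x = c • y

theorem Sc.symm {x y : U} (h : Sc x y) : Sc y x := by
  obtain ⟨c, hc, rfl⟩ := h
  refine ⟨c⁻¹, by rw [norm_inv, hc, inv_one], ?_⟩
  rw [smul_smul, inv_mul_cancel₀ (by rintro rfl; simp at hc), one_smul]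

theorem Sc.trans {x y z : U} (h : Sc x y) (h' : Sc y z) : Sc x z := by
  obtain ⟨c, hc, rfl⟩ := h
  obtain ⟨d, hd, rfl⟩ := h'
  exact ⟨c * d, by rw [norm_mul, hc, hd, one_mul], by rw [smul_smul]⟩

theorem Sc.mul {x y x' y' : U} (h : Sc x y) (h' : Sc x' y') : Sc (x * x') (y * y') := by
  obtain ⟨c, hc, rfl⟩ := h
  obtain ⟨d, hd, rfl⟩ := h'
  exact ⟨c * d, by rw [norm_mul, hc, hd, one_mul], by rw [smul_mul_smul_comm]⟩

theorem Sc.adj {x y : U} (h : Sc x y) : Sc (star x) (star y) := by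
  obtain ⟨c, hc, rfl⟩ := h
  exact ⟨star c, by rw [norm_star, hc], by rw [star_smul]⟩

theorem Sc.refl (x : U) : Sc x x := ⟨1, norm_one, by rw [one_smul]⟩

variable {G : Type} [Group G]

/-- the data of a projective representation -/
structure Proj (u : G → U) (σ : G →* G) (α : U →⋆ₐ[ℂ] U) : Prop where
  unit : ∀ g, u g ∈ unitary U
  mul : ∀ g h, Sc (u (g * h)) (u g * u h)
  cov : ∀ g, Sc (α (u g)) (u (σ g))

variable {u : G → U} {σ : G →* G} {α : U →⋆ₐ[ℂ] U}

theorem Sc.unit {x y : U} (h : Sc x y) (hy : y ∈ unitary U) : x ∈ unitary U := by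
  obtain ⟨c, hc, rfl⟩ := h
  have hc' : star c * c = 1 := by
    rw [Complex.star_def, mul_comm, Complex.mul_conj, Complex.normSq_eq_norm_sq, hc]
    simp
  have hc'' : c * star c = 1 := by rw [mul_comm, hc']
  constructor
  · rw [star_smul, smul_mul_smul_comm, Unitary.star_mul_self_of_mem hy, hc', one_smul]
  · rw [star_smul, smul_mul_smul_comm, Unitary.mul_star_self_of_mem hy, hc'', one_smul]

theorem Proj.one (h : Proj u σ α) : Sc (u 1) 1 := by
  have h1 := h.mul 1 1
  rw [mul_one] at h1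
  have h2 := h1.mul (Sc.refl (Star.star (u 1)))
  rw [mul_assoc, Unitary.mul_star_self_of_mem (h.unit 1), mul_one] at h2
  exact h2.symm

theorem Proj.inv (h : Proj u σ α) (g : G) : Sc (u g⁻¹) (star (u g)) := by
  have h1 := h.mul g⁻¹ g
  rw [inv_mul_cancel] at h1
  have h2 := (h1.symm.trans h.one).mul (Sc.refl (Star.star (u g)))
  rw [mul_assoc, Unitary.mul_star_self_of_mem (h.unit g), mul_one, one_mul] at h2
  exact h2

theorem Sc.map {x y : U} (h : Sc x y) : Sc (α x) (α y) := by
  obtain ⟨c, hc, rfl⟩ := h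
  exact ⟨c, hc, by rw [map_smul]⟩

theorem Proj.iter (h : Proj u σ α) (n : ℕ) (g : G) : Sc ((α^[n]) (u g)) (u ((σ^[n]) g)) := by
  induction n with
  | zero => exact Sc.refl _
  | succ n ih =>
    rw [Function.iterate_succ_apply', Function.iterate_succ_apply']
    exact (Sc.map ih).trans (h.cov _)

theorem Sc.iter {x y : U} (h : Sc x y) (n : ℕ) : Sc ((α^[n]) x) ((α^[n]) y) := by
  induction n with
  | zero => exact h
  | succ n ih =>
    rw [Function.iterate_succ_apply', Function.iterate_succ_apply']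
    exact Sc.map ih

theorem Proj.diff1 (h : Proj u σ α) (m : ℕ) {x : U} {g : G} (hx : Sc x (u g)) :
    Sc (diff α m x) (u (gdiff σ m g)) := by
  unfold diff gdiff
  refine (Sc.mul hx.adj ((Sc.iter hx m).trans (h.iter m g))).trans ?_
  exact ((h.mul _ _).trans ((h.inv g).mul (Sc.refl _))).symm

theorem Proj.diffk (h : Proj u σ α) (m k : ℕ) (g : G) :
    Sc (((diff α m)^[k]) (u g)) (u (((gdiff σ m)^[k]) g)) := by
  induction k with
  | zero => exact Sc.refl _
  | succ k ih =>
    rw [Function.iterate_succ_apply', Function.iterate_succ_apply']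
    exact h.diff1 m ih

theorem Sc.diff_one {x : U} (h : Sc x 1) (m : ℕ) : diff α m x = 1 := by
  obtain ⟨c, hc, rfl⟩ := h
  have hc' : star c * c = 1 := by
    rw [Complex.star_def, mul_comm, Complex.mul_conj, Complex.normSq_eq_norm_sq, hc]
    simp
  have h1 : (α^[m]) (1 : U) = 1 := by
    induction m with
    | zero => rfl
    | succ m ih => rw [Function.iterate_succ_apply', ih, map_one]
  rw [diff, Pool.Agent.Helper188.NCM.iter_smul, h1, star_smul, smul_mul_smul_comm, hc', one_smul, star_one, one_mul]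

/-- commuting up to central unitaries, for the whole representation -/
theorem tame_of_proj (h : Proj u σ α) (hσ : QuasiUnipotent σ)
    (hc : ∀ g g' : G, ∃ z : U, CentralUnitary z ∧ u g * u g' = z * (u g' * u g)) (g : G) :
    Tame α (u g) := by
  obtain ⟨m, hm, k, hk⟩ := hσ g
  refine ⟨h.unit g, m, hm, ⟨k + 1, ?_⟩, fun n l => ?_⟩
  · rw [Function.iterate_succ_apply']
    have h1 := h.diffk m k g
    rw [hk] at h1
    exact (h1.trans h.one).diff_one m
  · have h1 : ∀ n, Sc ((α^[n]) (diff α m (u g))) (u ((σ^[n]) (gdiff σ m g))) := fun n =>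
      (Sc.iter (h.diff1 m (Sc.refl (u g))) n).trans (h.iter n _)
    obtain ⟨z, hz, h2⟩ := hc ((σ^[n]) (gdiff σ m g)) ((σ^[l]) (gdiff σ m g))
    obtain ⟨c, hc1, e1⟩ := h1 n
    obtain ⟨d, hd1, e2⟩ := h1 l
    refine ⟨z, hz, ?_⟩
    rw [e1, e2, smul_mul_smul_comm, smul_mul_smul_comm, h2, mul_comm d c, mul_smul_comm]

theorem generates_of_dense (S : Set U) (hd : (Submodule.span ℂ S).topologicalClosure = ⊤)
    (hS : ∀ y ∈ S, Tame α y) : Generates α {g | Tame α g} := by
  have h2 : Submodule.span ℂ S ≤ Submodule.span ℂ {x : U | ∃ y ∈ {g | Tame α g}, ∃ v w,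
      Eigenvector α v ∧ Eigenvector α w ∧ x = v * y * w} := by
    refine Submodule.span_mono fun y hy => ?_
    have h1 : Eigenvector α 1 := ⟨1, norm_one, by rw [map_one, one_smul]⟩
    exact ⟨y, hS y hy, 1, 1, h1, h1, by rw [one_mul, mul_one]⟩
  have h3 := Submodule.topologicalClosure_mono h2
  rw [hd, top_le_iff] at h3
  exact h3

end proofs

/-- **Möbius disjointness of endomorphisms of C*-algebras generated by tame unitaries.**

Let `α` be an endomorphism of the unital C*-algebra `U`. If the products `v * g * w`, where `g` is a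
tame unitary and `v`, `w` are eigenvectors of `α`, span a dense subspace of `U`, then `α` is Möbius
disjoint: in the strong operator topology of every representation, for the products of any number
of bounded functionals, and for all continuous functions on all compact systems of functionals (such
as the state space); and so is each system generated by an equivariant image of `(U, α)` and
eigenvectors, and each subsystem of such a system. -/
theorem result (U : Type) [CStarAlgebra U] (α : U →⋆ₐ[ℂ] U) (h : Generates α {g | Tame α g}) :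
    AllDisjoint α :=
  allDisjoint_of_tame h

/-! ### Two classes of examples (not part of `result`) -/

/-- Twisted C*-algebras of abelian groups, for example noncommutative tori: the unitaries `u g`
multiply like the elements of the abelian group `G` up to scalars of modulus one and span a dense
subspace, and the endomorphism `α` covers a locally quasi-unipotent endomorphism `σ` of `G`. -/
theorem twisted_abelian (A G : Type) [CStarAlgebra A] [CommGroup G] (u : G → A)
    (hu : ∀ g, u g ∈ unitary A) (hmul : ∀ g h, ∃ c : ℂ, ‖c‖ = 1 ∧ u (g * h) = c • (u g * u h))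
    (hd : (Submodule.span ℂ (Set.range u)).topologicalClosure = ⊤)
    (σ : G →* G) (hσ : QuasiUnipotent σ) (α : A →⋆ₐ[ℂ] A)
    (hα : ∀ g, ∃ c : ℂ, ‖c‖ = 1 ∧ α (u g) = c • u (σ g)) : AllDisjoint α := by
  have hP : Proj u σ α := ⟨hu, hmul, hα⟩
  refine allDisjoint_of_tame (generates_of_dense _ hd ?_)
  rintro _ ⟨g, rfl⟩
  refine tame_of_proj hP hσ (fun g g' => ?_) g
  have h1 : Sc (u g * u g') (u g' * u g) := by
    refine (hP.mul g g').symm.trans ?_
    rw [mul_comm g g']
    exact hP.mul g' g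
  obtain ⟨c, hc, e⟩ := h1
  refine ⟨c • 1, ⟨Sc.unit ⟨c, hc, rfl⟩ (one_mem _), fun a => ?_⟩, ?_⟩
  · rw [smul_mul_assoc, one_mul, mul_smul_comm, mul_one]
  · rw [e, smul_mul_assoc, one_mul]

/-- C*-algebras of groups `G` of class two (full, reduced or any other completion), where `α` covers
a locally quasi-unipotent endomorphism `σ` of `G`. -/
theorem class_two (A G : Type) [CStarAlgebra A] [Group G] (u : G →* A) (hu : ∀ g, u g ∈ unitary A)
    (hG : ∀ g h : G, g * h * g⁻¹ * h⁻¹ ∈ Subgroup.center G)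
    (hd : (Submodule.span ℂ (Set.range u)).topologicalClosure = ⊤)
    (σ : G →* G) (hσ : QuasiUnipotent σ) (α : A →⋆ₐ[ℂ] A)
    (hα : ∀ g, ∃ c : ℂ, ‖c‖ = 1 ∧ α (u g) = c • u (σ g)) : AllDisjoint α := by
  have hP : Proj u σ α := ⟨hu, fun g h => by rw [map_mul]; exact Sc.refl _, hα⟩
  refine allDisjoint_of_tame (generates_of_dense _ hd ?_)
  rintro _ ⟨g, rfl⟩
  refine tame_of_proj hP hσ (fun g g' => ?_) g
  refine ⟨u (g * g' * g⁻¹ * g'⁻¹), ⟨hu _, fun a => ?_⟩, ?_⟩
  · have hcl : IsClosed {a : A | u (g * g' * g⁻¹ * g'⁻¹) * a = a * u (g * g' * g⁻¹ * g'⁻¹)} :=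
      isClosed_eq (continuous_const.mul continuous_id) (continuous_id.mul continuous_const)
    have h1 : (Submodule.span ℂ (Set.range u) : Set A) ⊆
        {a : A | u (g * g' * g⁻¹ * g'⁻¹) * a = a * u (g * g' * g⁻¹ * g'⁻¹)} := by
      intro a ha
      induction ha using Submodule.span_induction with
      | mem x hx =>
        obtain ⟨x, rfl⟩ := hx
        show u _ * u x = u x * u _
        rw [← map_mul, ← map_mul, Subgroup.mem_center_iff.1 (hG g g') x]
      | zero => show u _ * 0 = 0 * u _; rw [mul_zero, zero_mul]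
      | add x y _ _ hx hy =>
        show u _ * (x + y) = (x + y) * u _
        rw [mul_add, add_mul]
        exact congrArg₂ (· + ·) hx hy
      | smul c x _ hx =>
        show u _ * (c • x) = (c • x) * u _
        rw [mul_smul_comm, smul_mul_assoc]
        exact congrArg (c • ·) hx
    have h2 : a ∈ closure (Submodule.span ℂ (Set.range u) : Set A) := by
      have : a ∈ (Submodule.span ℂ (Set.range u)).topologicalClosure := by rw [hd]; trivial
      exact this
    exact closure_minimal h1 hcl h2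
  · rw [← map_mul, ← map_mul, ← map_mul]
    congr 1
    group

end Pool.Agent.Results.MP_7a8f48_an.TameUnitaries
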